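import Pool.Agent.Y669.GW.Finite
import Pool.Agent.Y669.GW.Transfer

/-!
# Expressibility on every finite group is co-r.e.-hard, already for one fixed list of words

The earlier result says that no algorithm decides, given `A, B₁, ..., Bₙ`, whether `A` is
expressible in `B₁, ..., Bₙ` on every finite group.  Here the list `B₁, ..., Bₙ` is fixed and only
`A` is given, and every set of natural numbers whose complement is recursively enumerable is
many-one reduced to the problem, by one computable function which is correct for all classes of
finite groups containing the finite symmetric groups at once.  In particular the words which are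
expressible in the fixed list on every finite group cannot even be enumerated.

The list is the one of the earlier proof, for a rewriting system `R` which simulates the diagonal
function.  The new point is an exact criterion: the target word of two strings is expressible on
every finite group if and only if no finite action of `R` separates the two strings.  Indeed the
letter operators of a finite group generate a finite quotient of the free monoid, and the quotient
of this monoid by `R` is a finite action of `R`; hence strings which no finite action separates are
joined by a chain of rewritings and of replacements by strings with the same operator, and both kinds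
of steps can be carried out on the group.
-/

set_option autoImplicit false

namespace Pool.Agent.Results.MP_8720f8_lc.FixedListComplete

open Pool.Agent.Helper583 Pool.Agent.Y669.GW

universe u

/-- `Expressible G Bs A`: the word `A` is expressible in the words of the list `Bs` on the
group `G`. This is the smallest set of words that contains every variable and every word of
the list, is closed under substitution of members of the set for the variables of a member
of the set, and is closed under identical equality on `G`. -/
inductive Expressible (G : Type u) [Group G] (Bs : List Word) : Word → Prop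
  | var (j : ℕ) : Expressible G Bs [(j, true)]
  | base (B : Word) (hB : B ∈ Bs) : Expressible G Bs B
  | subst (W : Word) (hW : Expressible G Bs W) (U : ℕ → Word)
      (hU : ∀ p ∈ W, Expressible G Bs (U p.1)) : Expressible G Bs (wSubst U W)
  | congr (W W' : Word) (hW : Expressible G Bs W) (h : IdenticallyEqual G W W') :
      Expressible G Bs W'

theorem good_of_expressible {s : Type u} (α : Bool → s → s) (Bs : List Word)
    (hBs : ∀ B ∈ Bs, Good α B) {A : Word} (h : Expressible (Equiv.Perm (VV s)) Bs A) :
    Good α A := by
  induction h with
  | var j => exact Good.var α j
  | base B hB => exact hBs B hB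
  | subst W _ U _ ihW ih => exact ihW.subst α U ih
  | congr W W' _ h ih => exact ih.congr α h

theorem expressible_congr.{v} {G : Type u} {H : Type v} [Group G] [Group H] (e : G ≃* H)
    {Bs : List Word} {A : Word} (h : Expressible G Bs A) : Expressible H Bs A := by
  induction h with
  | var j => exact Expressible.var j
  | base B hB => exact Expressible.base B hB
  | subst W _ U _ ihW ih => exact Expressible.subst W ihW U ih
  | congr W W' _ h ih => exact Expressible.congr W W' ih (identicallyEqual_congr e h)

/-- `C` is a class of finite groups which contains, up to isomorphism, all finite symmetric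
groups. -/
def FiniteClass (C : (G : Type u) → Group G → Prop) : Prop :=
  (∀ (G : Type u) (h : Group G), C G h → Finite G) ∧
    ∀ n : ℕ, ∃ (G : Type u) (h : Group G), C G h ∧ Nonempty (G ≃* Equiv.Perm (Fin n))

/-- The word `A` is expressible in the list `Bs` on every group of the class `C`. -/
def ExpressibleOn (C : (G : Type u) → Group G → Prop) (Bs : List Word) (A : Word) : Prop :=
  ∀ (G : Type u) (h : Group G), C G h → @Expressible G h Bs A

/-- **Expressibility on every finite group, for one fixed list of words.** There is a fixed nonempty
finite list `B :: Bs` of words such that

* for every set `V` of natural numbers whose complement is recursively enumerable there is a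
  computable function `f` from the natural numbers to words such that, for every class `C` of finite
  groups which contains the finite symmetric groups, and for every `n`, the number `n` is in `V` if
  and only if the word `f n` is expressible in the list on every group of `C`;
* for every such class `C`, the set of the words which are expressible in the list on every group of
  `C` is not recursively enumerable; in particular no algorithm decides, given a word `A`, whether
  `A` is expressible in the list on every group of `C`;
* in particular, both hold for the class of all finite groups. -/
theorem result : ∃ (B : Word) (Bs : List Word),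
    (∀ V : ℕ → Prop, (REPred fun n => ¬ V n) → ∃ f : ℕ → Word, Computable f ∧
      ∀ C : (G : Type u) → Group G → Prop, FiniteClass C →
        ∀ n, V n ↔ ExpressibleOn C (B :: Bs) (f n)) ∧
    (∀ C : (G : Type u) → Group G → Prop, FiniteClass C →
      (¬ REPred fun A : Word => ExpressibleOn C (B :: Bs) A) ∧
        ¬ ComputablePred fun A : Word => ExpressibleOn C (B :: Bs) A) ∧
    (∀ V : ℕ → Prop, (REPred fun n => ¬ V n) → ∃ f : ℕ → Word, Computable f ∧
      ∀ n, V n ↔ ∀ (G : Type u) [Group G] [Finite G], Expressible G (B :: Bs) (f n)) ∧
    (¬ REPred fun A : Word => ∀ (G : Type u) [Group G] [Finite G], Expressible G (B :: Bs) A) ∧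
    ¬ ComputablePred fun A : Word =>
      ∀ (G : Type u) [Group G] [Finite G], Expressible G (B :: Bs) A := by
  obtain ⟨B, Bs, t, A, ht, hA, h1, h0, hall, hup, hfin⟩ := package_finite.{u}
  have iff : ∀ C : (G : Type u) → Group G → Prop, FiniteClass C →
      ∀ n, ¬ A n ↔ ExpressibleOn C (B :: Bs) (t n) := by
    intro C hC n
    constructor
    · intro hn G hG hCG
      have : Finite G := hC.1 G hG hCG
      exact hup n hn G (Expressible G (B :: Bs)) ⟨Expressible.var,
        fun B' hB' σ hσ => Expressible.subst B' (Expressible.base B' hB') σ fun p _ => hσ p.1,
        fun W W' hW hc => Expressible.congr W W' hW hc⟩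
    · intro h hn
      obtain ⟨s, hs, α, g1, g2⟩ := hfin n hn
      obtain ⟨k, ⟨e⟩⟩ := exists_perm s
      obtain ⟨G, hG, hCG, ⟨e'⟩⟩ := hC.2 k
      refine g2 (good_of_expressible α _ g1 (expressible_congr e.symm ?_))
      exact expressible_congr e' (h G hG hCG)
  have many : ∀ V : ℕ → Prop, (REPred fun n => ¬ V n) → ∃ f : ℕ → Word, Computable f ∧
      ∀ C : (G : Type u) → Group G → Prop, FiniteClass C →
        ∀ n, V n ↔ ExpressibleOn C (B :: Bs) (f n) := by
    intro V hV
    obtain ⟨g, hg, hVg⟩ := reduce' hA h1 h0 hV
    exact ⟨fun n => t (g n), ht.comp hg, fun C hC n => by
      rw [← iff C hC (g n), ← hVg n, not_not]⟩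
  have notre : ∀ C : (G : Type u) → Group G → Prop, FiniteClass C →
      (¬ REPred fun A : Word => ExpressibleOn C (B :: Bs) A) ∧
        ¬ ComputablePred fun A : Word => ExpressibleOn C (B :: Bs) A := by
    intro C hC
    have hno : ¬ REPred fun A : Word => ExpressibleOn C (B :: Bs) A := by
      intro hre
      have hc : ¬ ComputablePred A := fun hc =>
        diag_insep (fun n => ¬ A n) hc.not h0 (fun n hn hn' => hn' (h1 n hn))
      refine hc (ComputablePred.computable_iff_re_compl_re'.2 ⟨hA, ?_⟩)
      have h2 : REPred fun n => ExpressibleOn C (B :: Bs) (t n) := Partrec.comp hre ht
      exact h2.of_eq fun n => (iff C hC n).symm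
    exact ⟨hno, fun h => hno h.to_re⟩
  have hfinC : FiniteClass.{u} fun G _ => Finite G := by
    refine ⟨fun G _ h => h, fun n => ?_⟩
    have hU : Finite (ULift.{u} (Equiv.Perm (Fin n))) := inferInstance
    exact ⟨ULift.{u} (Equiv.Perm (Fin n)), inferInstance, hU, ⟨MulEquiv.ulift⟩⟩
  have hE : ∀ W : Word, ExpressibleOn.{u} (fun G _ => Finite G) (B :: Bs) W ↔
      ∀ (G : Type u) [Group G] [Finite G], Expressible G (B :: Bs) W :=
    fun W => ⟨fun h G hG hf => h G hG hf, fun h G hG hf => h G⟩
  refine ⟨B, Bs, many, notre, ?_, ?_, ?_⟩
  · intro V hV
    obtain ⟨f, hf, hVf⟩ := many V hV
    exact ⟨f, hf, fun n => (hVf _ hfinC n).trans (hE (f n))⟩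
  · intro h
    exact (notre _ hfinC).1 (h.of_eq fun W => (hE W).symm)
  · intro h
    exact (notre _ hfinC).2 (h.of_eq fun W => (hE W).symm)

end Pool.Agent.Results.MP_8720f8_lc.FixedListComplete
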